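import Mathlib
import Pool.Agent.Y421.SD.B

/-!
# Asplund spaces without strongly subdifferentiable renormings: every density from `𝔠` on

In ZFC: an Asplund space of density exactly `𝔠` without equivalent SSD norm which has a bump
function depending locally on finitely many coordinates; and every Asplund space of density at
most `lam`, `lam ≥ 𝔠`, is a one-complemented subspace of an Asplund space of density exactly
`lam` without equivalent SSD norm.
-/

open Cardinal

namespace Pool.Agent.Results.MP_15aca8_an.EveryDensityFromContinuum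

/-- The density character: the least cardinality of a dense subset. -/
noncomputable def dens (X : Type) [TopologicalSpace X] : Cardinal.{0} :=
  sInf {c : Cardinal.{0} | ∃ s : Set X, Dense s ∧ #s = c}

/-- Asplund spaces: every closed separable subspace has a separable dual. -/
def IsAsplund (X : Type) [NormedAddCommGroup X] [NormedSpace ℝ X] : Prop :=
  ∀ Y : Submodule ℝ X, IsClosed (Y : Set X) → TopologicalSpace.SeparableSpace Y →
    TopologicalSpace.SeparableSpace (Y →L[ℝ] ℝ)

/-- `N` is a norm on `X` equivalent to the given one. -/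
def IsEquivalentNorm {X : Type} [NormedAddCommGroup X] [NormedSpace ℝ X] (N : X → ℝ) : Prop :=
  (∀ x y : X, N (x + y) ≤ N x + N y) ∧ (∀ (c : ℝ) (x : X), N (c • x) = |c| * N x) ∧
    ∃ a b : ℝ, 0 < a ∧ 0 < b ∧ ∀ x : X, a * ‖x‖ ≤ N x ∧ N x ≤ b * ‖x‖

/-- `N` is strongly subdifferentiable at every point: the limit of `(N (x + t h) - N x) / t` as
`t → 0+` exists uniformly in `h` with `N h = 1`. -/
def IsSSD {X : Type} [NormedAddCommGroup X] [NormedSpace ℝ X] (N : X → ℝ) : Prop :=
  ∀ x : X, ∃ τ : X → ℝ, ∀ ε : ℝ, 0 < ε → ∃ δ : ℝ, 0 < δ ∧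
    ∀ t : ℝ, 0 < t → t < δ → ∀ h : X, N h = 1 → |(N (x + t • h) - N x) / t - τ h| ≤ ε

/-- `X` has no equivalent SSD norm. -/
def NoSSDRenorming (X : Type) [NormedAddCommGroup X] [NormedSpace ℝ X] : Prop :=
  ∀ N : X → ℝ, IsEquivalentNorm N → ¬ IsSSD N

/-- `b` is a bump: continuous with bounded nonempty support. -/
def IsBump {X : Type} [NormedAddCommGroup X] [NormedSpace ℝ X] (b : X → ℝ) : Prop :=
  Continuous b ∧ Bornology.IsBounded (tsupport b) ∧ (tsupport b).Nonempty

/-- `b` depends locally on finitely many coordinates: near every point it is a function of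
finitely many continuous linear functionals. -/
def IsLFC {X : Type} [NormedAddCommGroup X] [NormedSpace ℝ X] (b : X → ℝ) : Prop :=
  ∀ x : X, ∃ O : Set X, IsOpen O ∧ x ∈ O ∧ ∃ (n : ℕ) (φ : Fin n → X →L[ℝ] ℝ)
    (g : (Fin n → ℝ) → ℝ), ∀ y ∈ O, b y = g (fun i => φ i y)

/-- `E` is an Asplund Banach space of density exactly `lam` with no equivalent SSD norm. -/
def IsExample (E : Type) [NormedAddCommGroup E] [NormedSpace ℝ E] (lam : Cardinal.{0}) : Prop :=
  CompleteSpace E ∧ IsAsplund E ∧ dens E = lam ∧ NoSSDRenorming E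

/-- `E` has a continuous bump function that depends locally on finitely many coordinates. -/
def HasLFCBump (E : Type) [NormedAddCommGroup E] [NormedSpace ℝ E] : Prop :=
  ∃ b : E → ℝ, IsBump b ∧ IsLFC b

/-- `Z` is isometric to a subspace of `E` which is complemented by a projection of norm at most
one. -/
def OneComplemented (Z E : Type) [NormedAddCommGroup Z] [NormedSpace ℝ Z]
    [NormedAddCommGroup E] [NormedSpace ℝ E] : Prop :=
  ∃ (j : Z →ₗᵢ[ℝ] E) (P : E →L[ℝ] Z), ‖P‖ ≤ 1 ∧ ∀ z, P (j z) = z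

theorem noSSD_X : NoSSDRenorming Pool.Agent.Helper570.Tree.X := by
  rintro N ⟨hadd, hsmul, a, b, ha, hb, hab⟩ hssd
  let p : Seminorm ℝ Pool.Agent.Helper570.Tree.X := Seminorm.of N hadd (fun c x => by
    rw [hsmul, Real.norm_eq_abs])
  exact Pool.Agent.Helper570.Tree.no_ssd (p := p) ha hb (fun x => (hab x).2)
    (fun x => (hab x).1) hssd

/-- The property passes to products. -/
theorem noSSD_prod {A B : Type} [NormedAddCommGroup A] [NormedSpace ℝ A]
    [NormedAddCommGroup B] [NormedSpace ℝ B] (hA : NoSSDRenorming A) :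
    NoSSDRenorming (A × B) := by
  rintro N ⟨hadd, hsmul, a, b, ha, hb, hab⟩ hssd
  have hn : ∀ x : A, ‖((x, 0) : A × B)‖ = ‖x‖ := by
    intro x
    rw [Prod.norm_mk, norm_zero]
    exact max_eq_left (norm_nonneg _)
  refine hA (fun x => N (x, 0)) ⟨?_, ?_, a, b, ha, hb, ?_⟩ ?_
  · intro x y
    have h := hadd (x, 0) (y, 0)
    rwa [Prod.mk_add_mk, add_zero] at h
  · intro c x
    have h := hsmul c (x, 0)
    rwa [Prod.smul_mk, smul_zero] at h
  · intro x
    have h := hab (x, 0)
    rwa [hn] at h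
  · intro x
    obtain ⟨τ, hτ⟩ := hssd (x, 0)
    refine ⟨fun h => τ (h, 0), fun ε hε => ?_⟩
    obtain ⟨δ, hδ, h1⟩ := hτ ε hε
    refine ⟨δ, hδ, fun t ht0 ht1 h hh => ?_⟩
    have h2 := h1 t ht0 ht1 (h, 0) hh
    rwa [Prod.smul_mk, smul_zero, Prod.mk_add_mk, add_zero] at h2

/-- (1) There is an Asplund space of density exactly `𝔠` with no equivalent strongly
subdifferentiable norm which has a continuous bump function depending locally on finitely many
coordinates. (2) For every cardinal `lam ≥ 𝔠`, every Asplund space `Z` of density at most `lam`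
(for example `Z = 0`) is isometric to a subspace, complemented by a projection of norm at most
one, of an Asplund space of density exactly `lam` with no equivalent strongly subdifferentiable
norm. -/
theorem result :
    (∃ (X : Type) (_ : NormedAddCommGroup X) (_ : NormedSpace ℝ X),
      IsExample X 𝔠 ∧ HasLFCBump X) ∧
    ∀ lam : Cardinal.{0}, 𝔠 ≤ lam →
      ∀ (Z : Type) [NormedAddCommGroup Z] [NormedSpace ℝ Z] [CompleteSpace Z],
        IsAsplund Z → dens Z ≤ lam →
        ∃ (E : Type) (_ : NormedAddCommGroup E) (_ : NormedSpace ℝ E),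
          IsExample E lam ∧ OneComplemented Z E := by
  have hX : IsAsplund Pool.Agent.Helper570.Tree.X :=
    fun Y _ hY => Pool.Agent.Helper570.Tree.asplund Y hY
  refine ⟨⟨Pool.Agent.Helper570.Tree.X, inferInstance, inferInstance, ⟨inferInstance, hX,
    Pool.Agent.Y421.SD.dens_X, noSSD_X⟩, ⟨Pool.Agent.Helper570.Tree.bump,
      ⟨Pool.Agent.Helper570.Tree.bump_continuous, ?_, ?_⟩,
      Pool.Agent.Helper570.Tree.bump_lfc⟩⟩, ?_⟩
  · apply Metric.isBounded_closedBall (x := (0 : Pool.Agent.Helper570.Tree.X)) (r := 2) |>.subset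
    apply closure_minimal _ Metric.isClosed_closedBall
    intro f hf
    rw [mem_closedBall_zero_iff]
    exact Pool.Agent.Helper570.Tree.bump_supp hf
  · refine ⟨0, subset_closure ?_⟩
    change Pool.Agent.Helper570.Tree.bump 0 ≠ 0
    rw [Pool.Agent.Helper570.Tree.bump_zero]
    exact one_ne_zero
  · intro lam hlam Z _ _ _ hZ hZd
    have hl0 : ℵ₀ ≤ lam := Cardinal.aleph0_le_continuum.trans hlam
    let Γ : Type := lam.out
    have hΓ : #Γ = lam := Cardinal.mk_out _
    let H : Type := Pool.Agent.Y421.SD.L2 Γ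
    have hH : IsAsplund (Pool.Agent.Y421.SD.L2 Γ) := Pool.Agent.Y421.SD.asplund_l2 Γ
    have hHd : Pool.Agent.Y421.SD.dens (Pool.Agent.Y421.SD.L2 Γ) = lam := by
      rw [Pool.Agent.Y421.SD.dens_l2 (by rw [hΓ]; exact hl0), hΓ]
    refine ⟨Pool.Agent.Helper570.Tree.X × (Z × Pool.Agent.Y421.SD.L2 Γ), inferInstance,
      inferInstance, ⟨inferInstance, ?_, ?_, noSSD_prod noSSD_X⟩, ?_⟩
    · exact Pool.Agent.Y421.SD.asplund_prod hX (Pool.Agent.Y421.SD.asplund_prod hZ hH)
    · change Pool.Agent.Y421.SD.dens _ = lam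
      apply le_antisymm
      · refine Pool.Agent.Y421.SD.dens_prod_le hl0 ?_
          (Pool.Agent.Y421.SD.dens_prod_le hl0 hZd hHd.le)
        rw [Pool.Agent.Y421.SD.dens_X]
        exact hlam
      · refine hHd.ge.trans ?_
        exact Pool.Agent.Y421.SD.dens_image_le
          (fun p : Pool.Agent.Helper570.Tree.X × (Z × Pool.Agent.Y421.SD.L2 Γ) => p.2.2)
          (continuous_snd.comp continuous_snd) (fun h => ⟨(0, 0, h), rfl⟩)
    · refine ⟨⟨(LinearMap.inr ℝ Pool.Agent.Helper570.Tree.X (Z × Pool.Agent.Y421.SD.L2 Γ)).comp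
        (LinearMap.inl ℝ Z (Pool.Agent.Y421.SD.L2 Γ)), ?_⟩,
        (ContinuousLinearMap.fst ℝ Z (Pool.Agent.Y421.SD.L2 Γ)).comp
        (ContinuousLinearMap.snd ℝ Pool.Agent.Helper570.Tree.X _), ?_, ?_⟩
      · intro z
        change ‖((0, (z, 0)) : Pool.Agent.Helper570.Tree.X × (Z × Pool.Agent.Y421.SD.L2 Γ))‖ = _
        rw [Prod.norm_mk, Prod.norm_mk, norm_zero, norm_zero]
        rw [max_eq_left (norm_nonneg z), max_eq_right (norm_nonneg z)]
      · refine ContinuousLinearMap.opNorm_le_bound _ zero_le_one fun p => ?_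
        rw [one_mul]
        change ‖p.2.1‖ ≤ ‖p‖
        exact (norm_fst_le p.2).trans (norm_snd_le p)
      · intro z
        rfl

end Pool.Agent.Results.MP_15aca8_an.EveryDensityFromContinuum
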